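import Pool.Agent.H72.EQQ.Targets2
import Pool.Agent.H82.EQ.VF2

/-!
# The distribution function of `max |x i| / rad ^ (1 / n)`: level layers relative to `hz`
-/

set_option autoImplicit false

open MeasureTheory Pool.Agent.H72.EQQ
open Pool.Agent.H82.EQ (pz hz flip_self flip_ne vol_flip pz_flip)

namespace Pool.Agent.H2.EQ

/-- the layer relative to one entry -/
def Pl (k : ℕ) (i : Fin k) (w δ : ℝ) : Set (Fin k → ℝ) :=
  {z : Fin k → ℝ | (∀ j, |z j| ≤ 1) ∧ |pz z - w * |z i| ^ (k + 1)| ≤ δ}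

theorem pf_HSL (h1 : T_PSL) : T_HSL := by
  intro k hk
  obtain ⟨C, hC, h⟩ := h1 k hk
  have hk0 : 0 < k := by omega
  obtain ⟨b, hb⟩ : ∃ b : Fin k, b = ⟨0, hk0⟩ := ⟨_, rfl⟩
  refine ⟨(k + 1) * C, by positivity, fun w δ hδ => ?_⟩
  have hsub : {z : Fin k → ℝ | hz z ≤ 1 ∧ |pz z - w * hz z ^ (k + 1)| ≤ δ} ⊆
      (⋃ i, Pl k i w δ) ∪ (Pool.Agent.H82.EQ.flip b) ⁻¹' (Pl k b w δ) := by
    intro z hzz
    obtain ⟨h2, h3⟩ := hzz
    have hn1 : ‖z‖ ≤ 1 := (le_max_left _ _).trans h2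
    have hj1 : ∀ j, |z j| ≤ 1 := fun j => (norm_le_pi_norm z j).trans hn1
    rcases max_choice ‖z‖ |∑ i, z i| with hm | hm
    · left
      have : Nonempty (Fin k) := ⟨b⟩
      obtain ⟨j, hj⟩ : ∃ j, ∀ i, |z i| ≤ |z j| := Finite.exists_max fun i => |z i|
      have hnj : ‖z‖ = |z j| := by
        apply le_antisymm
        · exact (pi_norm_le_iff_of_nonneg (abs_nonneg _)).2 hj
        · exact norm_le_pi_norm z j
      have hh : hz z = |z j| := by
        unfold hz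
        rw [hm, hnj]
      rw [hh] at h3
      exact Set.mem_iUnion.2 ⟨j, hj1, h3⟩
    · right
      have hh : hz z = |∑ i, z i| := by
        unfold hz
        rw [hm]
      show (∀ j, |Pool.Agent.H82.EQ.flip b z j| ≤ 1) ∧
        |pz (Pool.Agent.H82.EQ.flip b z) - w * |Pool.Agent.H82.EQ.flip b z b| ^ (k + 1)| ≤ δ
      rw [pz_flip, flip_self, abs_neg, ← hh]
      refine ⟨fun j => ?_, h3⟩
      by_cases hjb : j = b
      · rw [hjb, flip_self, abs_neg, ← hh]
        exact h2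
      · rw [flip_ne b z hjb]
        exact hj1 j
  have hP : ∀ i : Fin k, volume (Pl k i w δ) ≤ ENNReal.ofReal (C * Real.sqrt δ) :=
    fun i => h i w δ hδ
  calc volume {z : Fin k → ℝ | hz z ≤ 1 ∧ |pz z - w * hz z ^ (k + 1)| ≤ δ}
      ≤ volume ((⋃ i, Pl k i w δ) ∪ (Pool.Agent.H82.EQ.flip b) ⁻¹' (Pl k b w δ)) := measure_mono hsub
    _ ≤ volume (⋃ i, Pl k i w δ) + volume ((Pool.Agent.H82.EQ.flip b) ⁻¹' (Pl k b w δ)) := measure_union_le _ _
    _ ≤ ∑ i, volume (Pl k i w δ) + volume (Pl k b w δ) := by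
        rw [vol_flip]
        exact add_le_add (measure_iUnion_fintype_le _ _) le_rfl
    _ ≤ ∑ _i : Fin k, ENNReal.ofReal (C * Real.sqrt δ) + ENNReal.ofReal (C * Real.sqrt δ) :=
        add_le_add (Finset.sum_le_sum fun i _ => hP i) (hP b)
    _ = ENNReal.ofReal ((k + 1) * C * Real.sqrt δ) := by
        rw [Finset.sum_const, Finset.card_univ, Fintype.card_fin, nsmul_eq_mul]
        have h5 : 0 ≤ C * Real.sqrt δ := by positivity
        rw [mul_assoc, add_mul, one_mul, ENNReal.ofReal_add (by positivity) h5,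
          ENNReal.ofReal_mul (Nat.cast_nonneg k), ENNReal.ofReal_natCast]

end Pool.Agent.H2.EQ
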