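import Pool.Agent.H71.EQ.Targets

/-!
# Equidistribution of admissible tuples, NUL: null sets
-/

set_option autoImplicit false

open MeasureTheory Pool.Agent.H71.EQ

namespace Pool.Agent.H2.EQ

/-- the level sets of a homogeneous function -/
theorem level {k d : ℕ} (hd : 1 ≤ d) (g : (Fin k → ℝ) → ℝ) (hm : Measurable g)
    (hg : ∀ (r : ℝ) (z : Fin k → ℝ), 0 < r → g (r • z) = r ^ d * g z) (c : ℝ) (hc : 0 < c) :
    volume {z : Fin k → ℝ | g z = c} = 0 := by
  by_contra h
  have hcount := Measure.countable_meas_level_set_pos (μ := (volume : Measure (Fin k → ℝ))) hm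
  have hsub : Set.Ioi (0 : ℝ) ⊆ {t : ℝ | 0 < volume {a : Fin k → ℝ | g a = t}} := by
    intro t ht
    have ht0 : (0 : ℝ) < t := ht
    have hct : 0 < c / t := div_pos hc ht0
    have hr : 0 < (c / t) ^ (1 / (d : ℝ)) := Real.rpow_pos_of_pos hct _
    have hrd : ((c / t) ^ (1 / (d : ℝ))) ^ d = c / t := by
      rw [← Real.rpow_natCast, ← Real.rpow_mul hct.le, one_div_mul_cancel, Real.rpow_one]
      exact_mod_cast (by omega : d ≠ 0)
    have he : {a : Fin k → ℝ | g a = t} =
        (fun z : Fin k → ℝ => ((c / t) ^ (1 / (d : ℝ))) • z) ⁻¹' {a : Fin k → ℝ | g a = c} := by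
      ext z
      simp only [Set.mem_ofPred_eq, Set.mem_preimage]
      rw [hg _ _ hr, hrd]
      constructor
      · intro h1
        rw [h1]
        field_simp
      · intro h1
        have h2 : c / t * g z = c / t * t := by
          rw [h1]
          field_simp
        exact mul_left_cancel₀ hct.ne' h2
    show 0 < volume {a : Fin k → ℝ | g a = t}
    rw [he, Measure.addHaar_preimage_smul _ hr.ne']
    refine ENNReal.mul_pos ?_ h
    rw [Ne, ENNReal.ofReal_eq_zero, not_le]
    positivity
  have h1 := (hcount.mono hsub).measure_zero (volume : Measure ℝ)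
  rw [Real.volume_Ioi] at h1
  exact ENNReal.top_ne_zero h1

theorem extR_castSucc {k : ℕ} (z : Fin k → ℝ) (j : Fin k) : extR z j.castSucc = z j := by
  unfold extR
  exact Fin.snoc_castSucc (α := fun _ => ℝ) _ _ _

theorem extR_last {k : ℕ} (z : Fin k → ℝ) : extR z (Fin.last k) = -∑ i, z i := by
  unfold extR
  exact Fin.snoc_last (α := fun _ => ℝ) _ _

theorem extR_smul {k : ℕ} (r : ℝ) (z : Fin k → ℝ) (i : Fin (k + 1)) :
    extR (r • z) i = r * extR z i := by
  induction i using Fin.lastCases with
  | last =>
    rw [extR_last, extR_last]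
    simp [Finset.mul_sum]
  | cast j =>
    rw [extR_castSucc, extR_castSucc]
    simp

theorem extR_meas {k : ℕ} (i : Fin (k + 1)) : Measurable (fun z : Fin k → ℝ => extR z i) := by
  induction i using Fin.lastCases with
  | last =>
    simp only [extR_last]
    fun_prop
  | cast j =>
    simp only [extR_castSucc]
    fun_prop

theorem PR_smul {k : ℕ} (r : ℝ) (z : Fin k → ℝ) (hr : 0 < r) :
    PR (r • z) = r ^ (k + 1) * PR z := by
  unfold PR
  simp only [extR_smul]
  rw [Finset.prod_mul_distrib, abs_mul, Finset.prod_const, Finset.card_univ, Fintype.card_fin,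
    abs_of_pos (pow_pos hr _)]

theorem PR_meas {k : ℕ} : Measurable (fun z : Fin k → ℝ => PR z) := by
  unfold PR
  have h : Measurable (fun z : Fin k → ℝ => ∏ i, extR z i) :=
    Finset.measurable_prod _ (fun i _ => extR_meas i)
  exact continuous_abs.measurable.comp h

/-- the hyperplanes -/
theorem hyp {k : ℕ} (hk : 1 ≤ k) (i : Fin (k + 1)) :
    volume {z : Fin k → ℝ | extR z i = 0} = 0 := by
  induction i using Fin.lastCases with
  | last =>
    have he : {z : Fin k → ℝ | extR z (Fin.last k) = 0} =
        ((LinearMap.ker (∑ j : Fin k, LinearMap.proj (R := ℝ) (φ := fun _ => ℝ) j) :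
          Submodule ℝ (Fin k → ℝ)) : Set (Fin k → ℝ)) := by
      ext z
      simp only [Set.mem_ofPred_eq, extR_last, SetLike.mem_coe, LinearMap.mem_ker,
        LinearMap.sum_apply, LinearMap.proj_apply, neg_eq_zero]
    rw [he]
    apply Measure.addHaar_submodule
    intro htop
    have h1 : (fun _ => 1 : Fin k → ℝ) ∈
        (LinearMap.ker (∑ j : Fin k, LinearMap.proj (R := ℝ) (φ := fun _ => ℝ) j) :
          Submodule ℝ (Fin k → ℝ)) := by
      rw [htop]
      trivial
    rw [LinearMap.mem_ker, LinearMap.sum_apply] at h1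
    simp only [LinearMap.proj_apply, Finset.sum_const, Finset.card_univ, Fintype.card_fin,
      nsmul_eq_mul, mul_one] at h1
    have : k = 0 := by exact_mod_cast h1
    omega
  | cast j =>
    have he : {z : Fin k → ℝ | extR z j.castSucc = 0} =
        ((LinearMap.ker (LinearMap.proj (R := ℝ) (φ := fun _ => ℝ) j) :
          Submodule ℝ (Fin k → ℝ)) : Set (Fin k → ℝ)) := by
      ext z
      simp only [Set.mem_ofPred_eq, extR_castSucc, SetLike.mem_coe, LinearMap.mem_ker,
        LinearMap.proj_apply]
    rw [he]
    apply Measure.addHaar_submodule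
    intro htop
    have h1 : (fun _ => 1 : Fin k → ℝ) ∈
        (LinearMap.ker (LinearMap.proj (R := ℝ) (φ := fun _ => ℝ) j) :
          Submodule ℝ (Fin k → ℝ)) := by
      rw [htop]
      trivial
    rw [LinearMap.mem_ker, LinearMap.proj_apply] at h1
    exact one_ne_zero h1

theorem pf_NUL : T_NUL := by
  intro k hk c
  have hset : {z : Fin k → ℝ | ∃ i, |extR z i| = c} = ⋃ i, {z : Fin k → ℝ | |extR z i| = c} := by
    ext z
    simp
  have h2 : volume {z : Fin k → ℝ | ∃ i, |extR z i| = c} = 0 := by
    rw [hset, measure_iUnion_null_iff]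
    intro i
    rcases lt_trichotomy c 0 with hc | hc | hc
    · have : {z : Fin k → ℝ | |extR z i| = c} = ∅ := by
        ext z
        simp only [Set.mem_ofPred_eq, Set.mem_empty_iff_false, iff_false]
        intro h
        have := abs_nonneg (extR z i)
        linarith
      rw [this, measure_empty]
    · have : {z : Fin k → ℝ | |extR z i| = c} = {z : Fin k → ℝ | extR z i = 0} := by
        ext z
        simp only [Set.mem_ofPred_eq, hc, abs_eq_zero]
      rw [this]
      exact hyp hk i
    · refine level (le_refl 1) (fun z => |extR z i|)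
        (continuous_abs.measurable.comp (extR_meas i)) ?_ c hc
      intro r z hr
      show |extR (r • z) i| = r ^ 1 * |extR z i|
      rw [extR_smul, abs_mul, abs_of_pos hr, pow_one]
  refine ⟨?_, h2⟩
  rcases lt_trichotomy c 0 with hc | hc | hc
  · have : {z : Fin k → ℝ | PR z = c} = ∅ := by
      ext z
      simp only [Set.mem_ofPred_eq, Set.mem_empty_iff_false, iff_false]
      intro h
      have : 0 ≤ PR z := abs_nonneg _
      linarith
    rw [this, measure_empty]
  · subst hc
    have : {z : Fin k → ℝ | PR z = 0} ⊆ {z : Fin k → ℝ | ∃ i, |extR z i| = 0} := by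
      intro z hz
      have h1 : |∏ i, extR z i| = 0 := hz
      rw [abs_eq_zero, Finset.prod_eq_zero_iff] at h1
      obtain ⟨i, _, hi⟩ := h1
      exact ⟨i, by rw [hi, abs_zero]⟩
    exact measure_mono_null this h2
  · exact level (Nat.succ_le_succ (Nat.zero_le k)) (fun z => PR z) PR_meas
      (fun r z hr => PR_smul r z hr) c hc

end Pool.Agent.H2.EQ
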